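import Pool.Agent.Q76.FH.Lag

/-!
# The conjecture of Galkin and Shinder for the cubic fourfolds which are rational by a fibration

Let `X` be a smooth cubic fourfold, `h ∈ H^4(X, ℤ)` the square of the hyperplane class and `F(X)`
the variety of the lines in `X`. By a theorem of Addington `F(X)` is birational to `S^[2]` for a K3
surface `S` if and only if `X` lies in a divisor `C_d` with `a ^ 2 * d = 2 * n ^ 2 + 2 * n + 2` for some
integers `a`, `n`; this criterion is `FanoHilb`. The conjecture says that the rational `X` are those with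
`F(X)` birational to some `S^[2]`. It is proved:

1. if there is a Hodge class `ℓ` with `ℓ.ℓ = (h.ℓ)^2` (that is, `F(X)` has a class of square
   zero, hence a rational Lagrangian fibration) and a Hodge class `T` such that `ℓ.T` is prime to
   `h.ℓ`, then `F(X)` is birational to some `S^[2]` (and `X` has an associated K3 surface);
2. if `X` contains a plane `P` and `T.(h - P)` is odd for a Hodge class `T` (the cubic fourfolds
   which are rational by Hassett's theorem), then `X` is rational and `F(X)` is birational to
   some `S^[2]`;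
3. if there are Hodge classes `S` and `T` with `S.h = 6` and `S.S = 18` (the class of a sextic
   del Pezzo surface) and `T.S` is not divisible by three (the cubic fourfolds in `C_18` which are
   rational by the theorem of Addington, Hassett, Tschinkel and Várilly-Alvarado), then `F(X)` is
   birational to some `S^[2]`;
4. both `X` is rational and `F(X)` is birational to some `S^[2]`, if the number `N` of planes in `X`
   is at least `12` and not one of `13`, `15`, `17`, `19`, `21`, `27`, or if some plane meets at least
   `21` other planes in lines, or if `X` contains `12` planes which meet pairwise in one point, or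
   if `N ≥ 2 ^ (23 - ρ)` where `ρ` is the rank of the group of Hodge classes, or if `N = 27` and some
   plane does not meet exactly `10` other planes in lines.

So the conjecture is true for all these `X`. The known facts on `H^4(X, ℤ)` and on planes which are
used are the fields of `H4.IsCohomology` (Hodge, Riemann, Voisin, Hassett).

Idea for 1: put `m = h.ℓ`, `a = h.T`, `b = m a - ℓ.T`. There are an odd `k = 2 i + 1` and `z` with
`m k + b z = 1`, and then a class `i h + y ℓ + z T` satisfies `u.u = (h.u + 1)^2 + 1`, so that its
discriminant is `2 n^2 + 2 n + 2` with `n = h.u + 1`.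
-/

namespace Pool.Agent.Results.MP_4d0966_ag.LagrangianFibrations

open Pool.Agent.Y95.Q

/-- Addington's criterion: there is a Hodge class `v` such that `h` and `v` span a saturated group
of discriminant `d` with `a ^ 2 * d = 2 * n ^ 2 + 2 * n + 2` for some integers `a` and `n`. By a
theorem of Addington this means that the variety `F(X)` of the lines in `X` is birational to the
Hilbert square `S^[2]` of a K3 surface `S`. -/
def FanoHilb {X : CubicFourfold} (H : H4 X) : Prop :=
  ∃ v, H.IsHodge v ∧ H.Saturated v ∧ ∃ a n : ℤ, a ^ 2 * H.disc v = 2 * n ^ 2 + 2 * n + 2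

/-- **The conjecture of Galkin and Shinder holds for cubic fourfolds which are rational by a
fibration, in particular for cubic fourfolds with many planes.** -/
theorem result {X : CubicFourfold} {H : H4 X} (hH : H.IsCohomology) :
    (∀ l T, H.IsHodge l → H.IsHodge T → H.ip l l = H.ip H.h l ^ 2 →
      IsCoprime (H.ip H.h l) (H.ip l T) → FanoHilb H ∧ H.HasK3) ∧
    (∀ (P : X.Plane) (T : Fin 23 → ℤ), H.IsHodge T → Odd (H.ip T (H.h - H.cl P)) →
      X.IsRational ∧ FanoHilb H) ∧
    (∀ S T, H.IsHodge S → H.IsHodge T → H.ip S H.h = 6 → H.ip S S = 18 →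
      ¬ (3 : ℤ) ∣ H.ip S T → FanoHilb H) ∧
    ((12 ≤ Nat.card X.Plane ∧ Nat.card X.Plane ∉ ({13, 15, 17, 19, 21, 27} : Finset ℕ)) ∨
      (∃ P : X.Plane, 21 ≤ Nat.card {Q : X.Plane // H.ip (H.cl P) (H.cl Q) = -1}) ∨
      (∃ P : Fin 12 → X.Plane, ∀ i j, i ≠ j → H.ip (H.cl (P i)) (H.cl (P j)) = 1) ∨
      2 ^ (23 - H.rank) ≤ Nat.card X.Plane ∨
      (Nat.card X.Plane = 27 ∧
        ∃ P : X.Plane, Nat.card {Q : X.Plane // H.ip (H.cl P) (H.cl Q) = -1} ≠ 10) →
      X.IsRational ∧ FanoHilb H) := by
  refine ⟨fun l T hl hT hll hc => ?_, fun P T hT hodd => ?_, fun S T hS hT h1 h2 h3 => ?_,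
    fun h => ?_⟩
  · have h := Pool.Agent.Q76.FH.fanoHilb_of_isotropic hH hl hT hll hc
    exact ⟨h, Pool.Agent.Q76.FH.hasK3_of_fanoHilb hH h⟩
  · exact ⟨hH.hassett P T hT hodd,
      Pool.Agent.Q76.FH.fanoHilb_of_plane hH ((hH.cl_range _).1 ⟨P, rfl⟩) hT hodd⟩
  · exact Pool.Agent.Q76.FH.fanoHilb_of_sextic hH hS h1 h2 hT h3
  · exact Pool.Agent.Q76.FH.of_not_allEven hH (Pool.Agent.Q76.FH.not_allEven hH h)

end Pool.Agent.Results.MP_4d0966_ag.LagrangianFibrations
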