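import Pool.Agent.Q138.CF.Hilb

/-!
# The Galkin-Shinder question for cubic fourfolds with automorphisms

Let `X` be a smooth cubic fourfold and `σ` a linear automorphism of `X`; it acts on the line
`H^{3,1}(X)` as its determinant. It is proved that `X` is rational and that its variety of lines
`F(X)` is birational to the Hilbert square `S^[2]` of a K3 surface, if

* the determinant is `1` or `-1` and some plane in `X` is not mapped to itself by `σ`, or
* the determinant is a primitive third root of unity and some plane in `X` does not meet its image
  under `σ` in a line (for example if `σ` preserves some plane).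

The known facts which are used are collected in `H4.IsCohomology` and `Functorial`; `HasHilb` is
Addington's criterion for `F(X)` to be birational to some `S^[2]`.
-/

set_option autoImplicit false

namespace Pool.Agent.Results.MP_4d0966_ag.MovedPlanes

open Pool.Agent.Y95.Q Pool.Agent.Q138.CF

/-- **Cubic fourfolds with an automorphism moving a plane are rational, and `F(X)` is birational to
some `S^[2]`.** -/
theorem result {X : CubicFourfold} {H : H4 X} (hH : H.IsCohomology) (hF : Functorial H)
    (σ : Aut X)
    (h : ((σ.det = 1 ∨ σ.det = -1) ∧ ∃ P : X.Plane, σ.move P ≠ P) ∨
      (σ.det ^ 2 + σ.det + 1 = 0 ∧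
        ∃ P : X.Plane, H.ip (H.cl P) (H.cl (σ.move P)) ≠ -1)) :
    X.IsRational ∧ HasHilb H :=
  hilb_aut hH hF σ h

end Pool.Agent.Results.MP_4d0966_ag.MovedPlanes
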