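import Pool.Agent.Q76.FH.Eq

/-!
# The conjectures of Galkin–Shinder and of Hassett agree on `C_8` and on `C_18`

Let `X` be a smooth cubic fourfold. By a theorem of Addington the variety `F(X)` of the lines in `X`
is birational to the Hilbert square `S^[2]` of a K3 surface `S` if and only if `X` lies in a divisor
`C_d` with `a ^ 2 * d = 2 * n ^ 2 + 2 * n + 2` for some integers `a`, `n` (`FanoHilb`); this is more
restrictive than Hassett's condition (`HasK3`) that `d` is not divisible by `4`, `9` or an odd prime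
number `p` with `p ≡ 2 mod 3`, for instance on `C_74`. It is proved that the two conditions
are equivalent for all `X` in `C_8` (these are the cubic fourfolds which contain a plane) and for all
`X` in `C_18` (the general ones are fibred in sextic del Pezzo surfaces), and that they are local:

* if `X` is in `C_8` then they hold if and only if `disc v` is not divisible by `4` for some Hodge
  class `v`;
* if `X` is in `C_18` then they hold if and only if `disc v` is not congruent to `0` or `12` modulo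
  `18` for some Hodge class `v`.

Here `disc v = 3 v.v - (h.v)^2` for all `v`, the pair `h`, `v` need not be saturated. So the
conjecture of Galkin and Shinder for these `X` is equivalent to the conjecture of Hassett and
Kuznetsov; and `F(X)` is birational to some `S^[2]` for all `X` in `C_8 ∩ C_d` with `d ≡ 2 mod 4`
and for all `X` in `C_18 ∩ C_d` with `d` not congruent to `0` or `12` modulo `18`.

Idea for `C_8`: there is a Hodge class `ℓ` with `h.ℓ = 2`, `ℓ.ℓ = 4`; for a Hodge class `v` and
`u = i h + y ℓ + z v` the condition `disc u = 2 n ^ 2 + 2 n + 2` with `n = h.u + 1` is a linear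
equation for `y` with the coefficient `2 (2 i + 1) + b z`, `b = 2 h.v - ℓ.v`; if `b` is even one takes
`z = 1` and makes the coefficient equal to `±2` or `±4`.
-/

namespace Pool.Agent.Results.MP_4d0966_ag.SameAsHassett

open Pool.Agent.Y95.Q Pool.Agent.Q76.FH

/-- **Addington's and Hassett's criteria are equivalent for the cubic fourfolds in `C_8` and in
`C_18`.** -/
theorem result {X : CubicFourfold} {H : H4 X} (hH : H.IsCohomology) :
    (InC H 8 ∨ InC H 18 → (FanoHilb H ↔ H.HasK3)) ∧
    (InC H 8 → (FanoHilb H ↔ ∃ v, H.IsHodge v ∧ ¬ 4 ∣ H.disc v)) ∧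
    (InC H 18 → (FanoHilb H ↔ ∃ v, H.IsHodge v ∧ H.disc v % 18 ≠ 0 ∧ H.disc v % 18 ≠ 12)) := by
  have h8 : InC H 8 → (∃ v, H.IsHodge v ∧ ¬ 4 ∣ H.disc v) → FanoHilb H := by
    rintro h ⟨v, hv, h4⟩
    obtain ⟨l, hl, h1, h2⟩ := exists_two hH h
    exact two hH hl hv h1 h2 h4
  have h18 : InC H 18 → (∃ v, H.IsHodge v ∧ H.disc v % 18 ≠ 0 ∧ H.disc v % 18 ≠ 12) →
      FanoHilb H := by
    rintro h ⟨v, hv, h0, h12⟩
    obtain ⟨l, hl, h1, h2⟩ := exists_three hH h
    exact three hH hl hv h1 h2 h0 h12
  have k8 : H.HasK3 → ∃ v, H.IsHodge v ∧ ¬ 4 ∣ H.disc v := by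
    rintro ⟨v, hv, -, hd⟩
    exact ⟨v, hv, hd.2.1⟩
  have k18 : H.HasK3 → ∃ v, H.IsHodge v ∧ H.disc v % 18 ≠ 0 ∧ H.disc v % 18 ≠ 12 := by
    rintro ⟨v, hv, -, hd⟩
    exact ⟨v, hv, admissible_mod hd (disc_even hH v)⟩
  refine ⟨?_, fun h => ⟨fun h1 => k8 (hasK3_of_fanoHilb hH h1), h8 h⟩,
    fun h => ⟨fun h1 => k18 (hasK3_of_fanoHilb hH h1), h18 h⟩⟩
  rintro (h | h)
  · exact ⟨hasK3_of_fanoHilb hH, fun h1 => h8 h (k8 h1)⟩
  · exact ⟨hasK3_of_fanoHilb hH, fun h1 => h18 h (k18 h1)⟩

end Pool.Agent.Results.MP_4d0966_ag.SameAsHassett
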