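import Pool.Agent.Q76.LG.Meyer

/-!
# The conjectures of Galkin–Shinder and of Hassett agree on `C_{2 k^2}` in rank at least three

Let `X` be a smooth cubic fourfold. By a theorem of Addington the variety `F(X)` of the lines in `X`
is birational to the Hilbert square `S^[2]` of a K3 surface `S` if and only if `X` lies in a divisor
`C_d` with `a ^ 2 * d = 2 * n ^ 2 + 2 * n + 2` for some integers `a`, `n` (`FanoHilb`); this is more
restrictive than Hassett's condition (`HasK3`) that `X` lies in a `C_d` such that `d > 6` is not
divisible by `4`, `9` or an odd prime number `p` with `p ≡ 2 mod 3`. For instance the general `X` in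
`C_98` satisfies the second condition and not the first one.

Here we consider the `X` with a Hodge class `v` of discriminant `3 v.v - (h.v)^2 = 2 k^2 ≠ 0`, that is
the members of the divisors `C_8, C_18, C_32, C_50, C_72, C_98, …` (equivalently: `F(X)` has a class
of square zero, so that some birational model of it has a Lagrangian fibration). It is proved
that the two conditions are equivalent for

* all such `X` with a group of Hodge classes of rank at least four, and
* all such `X` with a nonzero Hodge class `u`, orthogonal to `h` and `v`, such that `u.u` is either
  twice a square, or divisible by an odd power `p^a`, and not by `p^(a+1)`, of an odd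
  prime number `p` which does not divide `k` (in rank three `u` is unique up to multiples, and this is
  a condition on the discriminant of the group of Hodge classes).

If the rank is at least five, then such a class `v` always exists by Meyer's theorem (an indefinite
integral quadratic form in five variables has a nontrivial zero), which is not in Mathlib and is a
hypothesis (`Meyer`) of the last part: the two conditions are equivalent for

* all `X` with a group of Hodge classes of rank at least five.

So the conjecture of Galkin and Shinder for these `X` is equivalent to the one of Hassett and Kuznetsov.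

Idea: let `e` be the isotropic class, orthogonal to a root `r`, in the algebraic Mukai lattice. A class
`w` with `(w, r) = 1` can be changed to an isotropic class by adding a multiple of `e` if `(w, e)`
divides `(w, w) / 2`. Here `(w, e)` can be made equal to `g P` with a fixed number `g` and a prime
number `P` by Dirichlet's theorem; at the primes in `g` one uses an isotropic class which comes from the
associated K3 surface, and modulo `P` one has to solve an equation of a conic (rank at least
four), or a quadratic equation with a known discriminant (rank three), for which `P` is chosen
by quadratic reciprocity.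
-/

namespace Pool.Agent.Results.MP_4d0966_ag.SquareDiscriminants

open Pool.Agent.Y95.Q Pool.Agent.Q76.FH Pool.Agent.Q76.LG

/-- **Addington's and Hassett's criteria are equivalent for cubic fourfolds in `C_{2 k^2}` with a group
of Hodge classes of rank at least four, for most of those of rank three, and (by Meyer's
theorem) for all cubic fourfolds with a group of Hodge classes of rank at least five.** -/
theorem result {X : CubicFourfold} {H : H4 X} (hH : H.IsCohomology) :
    (∀ (v : Fin 23 → ℤ) (k : ℤ), H.IsHodge v → k ≠ 0 → H.disc v = 2 * k ^ 2 →
      (4 ≤ H.rank → (FanoHilb H ↔ H.HasK3)) ∧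
      ∀ u, H.IsHodge u → u ≠ 0 → H.ip H.h u = 0 → H.ip v u = 0 →
        ((∃ y : ℤ, H.ip u u = 2 * y ^ 2) ∨
          ∃ (p a : ℕ) (n : ℤ), p.Prime ∧ p ≠ 2 ∧ ¬ (p : ℤ) ∣ k ∧ Odd a ∧ ¬ (p : ℤ) ∣ n ∧
            H.ip u u = (p : ℤ) ^ a * n) →
        (FanoHilb H ↔ H.HasK3)) ∧
    (Meyer → 5 ≤ H.rank → (FanoHilb H ↔ H.HasK3)) :=
  ⟨fun _ _ hv hk hd => ⟨fun h => fanoHilb_iff' hH hv hk hd (Or.inl h),
    fun u h1 h2 h3 h4 h5 => fanoHilb_iff' hH hv hk hd (Or.inr ⟨u, h1, h2, h3, h4, h5⟩)⟩,
    fun hM hr => fanoHilb_iff_of_meyer hM hH hr⟩

end Pool.Agent.Results.MP_4d0966_ag.SquareDiscriminants
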